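import Pool.Agent.N731.HV.Lg

set_option autoImplicit false

/-!
# MP_f0209c_nt: the Alternative Hypothesis and the de Bruijn-Newman family

`H t z` is the integral of `exp (t * u ^ 2) * Phi u * cos (z * u)` over `u > 0`, so that `H 0 z` is
`ξ(1/2 + i z / 2) / 8`: the zeros of `H 0` are the numbers `z` for which `1/2 + i z / 2` is a nontrivial zero
of zeta, and `Re z / 2` is its ordinate.  The mean spacing of the ordinates is `2π / log T`.

No hypothesis is assumed.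

* At times `t ≤ δ / log² T` the numbers of spacings between consecutive different ordinates in `(0, T]` of size
  between `α` and `β` mean spacings are the same for zeta and for `H t`, up to a change of `α`, `β` by `ε` and an
  error `ε T log T`.
* So, if `t(T) log² T → 0` and `E` is closed, almost all positive normalised spacings of zeta are near `E` if and only
  if this is true of `H (t T)`.
* Let (AA) be the Alternative Hypothesis for almost all spacings, with multiplicity: almost all positive spacings are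
  near `1/2, 1, 3/2, …`, and almost no zeros are multiple or have a neighbour at less than `λ` mean spacings,
  for `λ < 1/2`.  The Alternative Hypothesis (every spacing) implies (AA) for zeta, and (AA) for zeta is equivalent to
  (AA) for `H (t T)` if `t(T) log² T → 0`.
* If `t(T) log² T → ∞` and `t(T) log T` is bounded, then almost all spacings of `H (t T)` are close to `1`, so that (AA)
  is true of `H (t T)`.
-/

open Filter Topology Set

namespace Pool.Agent.Results.MP_f0209c_nt.HeatFlowSpacings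

/-- The de Bruijn-Newman kernel. -/
noncomputable def Phi (u : ℝ) : ℝ := ∑' n : ℕ,
  (2 * Real.pi ^ 2 * ((n : ℝ) + 1) ^ 4 * Real.exp (9 * u) -
    3 * Real.pi * ((n : ℝ) + 1) ^ 2 * Real.exp (5 * u)) *
    Real.exp (-(Real.pi * ((n : ℝ) + 1) ^ 2 * Real.exp (4 * u)))

/-- The de Bruijn-Newman family: the integral of `exp (t u²) Φ(u) cos (z u)` over `u > 0`. -/
noncomputable def H (t : ℝ) (z : ℂ) : ℂ :=
  ∫ u in Set.Ioi (0 : ℝ), ((Real.exp (t * u ^ 2) * Phi u : ℝ) : ℂ) * Complex.cos (z * u)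

/-- The ordinates of the nontrivial zeros of zeta. -/
def zetaOrd : Set ℝ := {y | ∃ s : ℂ, 0 < s.re ∧ s.re < 1 ∧ riemannZeta s = 0 ∧ s.im = y}

/-- The ordinates `Re z / 2` of the zeros of `H t`. -/
def heatOrd (t : ℝ) : Set ℝ := {y | ∃ z : ℂ, H t z = 0 ∧ z.re / 2 = y}

/-- `p.1` and `p.2` are consecutive elements of `A` in `(0, T]`, and `g = (p.2 - p.1) log T / 2π` is their normalised
spacing. -/
def Gap (A : Set ℝ) (T g : ℝ) (p : ℝ × ℝ) : Prop :=
  (p.1 < p.2 ∧ p.1 ∈ A ∧ p.2 ∈ A ∧ ∀ y ∈ A, ¬ (p.1 < y ∧ y < p.2)) ∧ 0 < p.1 ∧ p.2 ≤ T ∧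
    g = (p.2 - p.1) * (Real.log T / (2 * Real.pi))

/-- The number of normalised spacings between consecutive elements of `A` in `(0, T]` which are in `S`. -/
noncomputable def gaps (A : Set ℝ) (T : ℝ) (S : Set ℝ) : ℝ := ({p | ∃ g ∈ S, Gap A T g p}.ncard : ℝ)

/-- The nontrivial zeros of zeta with ordinate in `(T, 2T]` which are multiple or whose ordinate differs from that of
another zero by at most `lam` times `2π / log T`; a zero of order `m` gives `m` elements. -/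
def zetaClose (T lam : ℝ) : Set (ℂ × ℕ) :=
  {p | (0 < p.1.re ∧ p.1.re < 1 ∧ p.2 < analyticOrderNatAt riemannZeta p.1) ∧ (T < p.1.im ∧ p.1.im ≤ 2 * T) ∧
    (1 < analyticOrderNatAt riemannZeta p.1 ∨ ∃ w : ℂ, w ≠ p.1 ∧ riemannZeta w = 0 ∧ 0 < w.re ∧ w.re < 1 ∧
      0 < w.im ∧ |w.im - p.1.im| * Real.log T ≤ 2 * Real.pi * lam)}

/-- The same for `H t`, where `Re z / 2` is the ordinate. -/
def heatClose (t T lam : ℝ) : Set (ℂ × ℕ) :=
  {p | p.2 < analyticOrderNatAt (H t) p.1 ∧ (T < p.1.re / 2 ∧ p.1.re / 2 ≤ 2 * T) ∧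
    (1 < analyticOrderNatAt (H t) p.1 ∨ ∃ w : ℂ, w ≠ p.1 ∧ H t w = 0 ∧ 0 < w.re / 2 ∧
      |w.re / 2 - p.1.re / 2| * Real.log T ≤ 2 * Real.pi * lam)}

/-- Almost all normalised spacings of the sets `A T` (up to `o(T log T)`) are near `E` or near `0`. -/
def Near (A : ℝ → Set ℝ) (E : Set ℝ) : Prop := ∀ α β : ℝ, 0 < α → α ≤ β → Disjoint (Icc α β) E →
  Tendsto (fun T : ℝ => gaps (A T) T (Icc α β) / (T * Real.log T)) atTop (𝓝 0)

/-- `{1/2, 1, 3/2, 2, …}`. -/
def Half : Set ℝ := {x | ∃ k : ℕ, 1 ≤ k ∧ x = k / 2}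

/-- The Alternative Hypothesis for zeta, for almost all spacings, with multiplicity. -/
def ZetaAA : Prop := Near (fun _ => zetaOrd) Half ∧ ∀ lam η : ℝ, lam < 1 / 2 → 0 < η →
  ∀ᶠ T : ℝ in atTop, ((zetaClose T lam).ncard : ℝ) ≤ η * (T * Real.log T)

/-- The Alternative Hypothesis for the functions `H (t T)`, for almost all spacings, with multiplicity. -/
def HeatAA (t : ℝ → ℝ) : Prop := Near (fun T => heatOrd (t T)) Half ∧ ∀ lam η : ℝ, lam < 1 / 2 → 0 < η →
  ∀ᶠ T : ℝ in atTop, ((heatClose (t T) T lam).ncard : ℝ) ≤ η * (T * Real.log T)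

/-- multiplicity of `s` as a zero of the Riemann zeta function (order of vanishing at `s`) -/
noncomputable def zmult (s : ℂ) : ℕ := analyticOrderNatAt riemannZeta s

/-- the number of nontrivial zeros of `ζ` with ordinate in `(0, t]`, with multiplicity -/
noncomputable def NZ (t : ℝ) : ℕ :=
  ∑ᶠ s ∈ {s : ℂ | riemannZeta s = 0 ∧ 0 < s.re ∧ s.re < 1 ∧ 0 < s.im ∧ s.im ≤ t}, zmult s

/-- for `n ≥ 1`: the `n`-th positive ordinate of a nontrivial zero of `ζ`, the ordinates being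
listed in nondecreasing order and repeated according to multiplicity -/
noncomputable def ord (n : ℕ) : ℝ := sInf {t : ℝ | n ≤ NZ t}

/-- the normalised spacing `d_n` of the problem -/
noncomputable def d (n : ℕ) : ℝ :=
  1 / (2 * Real.pi) * (ord (n + 1) * Real.log (ord (n + 1))) - 1 / (2 * Real.pi) * (ord n * Real.log (ord n))

/-- The Alternative Hypothesis. -/
def AH : Prop := ∀ ε : ℝ, 0 < ε → ∃ j₀ : ℕ, ∀ j : ℕ, j₀ ≤ j → ∃ k : ℕ, 1 ≤ k ∧ |d j - k / 2| < ε

lemma gaps_eq (A : Set ℝ) (T α β : ℝ) : gaps A T (Icc α β) = ((Pool.Agent.R838.ST.SP A T α β).ncard : ℝ) := by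
  unfold gaps
  congr 2
  ext p
  constructor
  · rintro ⟨g, ⟨h1, h2⟩, h3, h4, h5, h6⟩
    exact ⟨h3, h4, h5, by rw [← h6]; exact h1, by rw [← h6]; exact h2⟩
  · rintro ⟨h1, h2, h3, h4, h5⟩
    exact ⟨_, ⟨h4, h5⟩, h1, h2, h3, rfl⟩

lemma bad_eq (A : Set ℝ) (T ε : ℝ) : gaps A T {g | ε ≤ |g - 1|} = ((Pool.Agent.N731.HV.BD A T ε).ncard : ℝ) := by
  unfold gaps
  congr 2
  ext p
  constructor
  · rintro ⟨g, h1, h3, h4, h5, h6⟩
    refine ⟨h3, h4, h5, ?_⟩
    rw [← h6]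
    exact h1
  · rintro ⟨h1, h2, h3, h4⟩
    exact ⟨_, h4, h1, h2, h3, rfl⟩

lemma near_iff (A : ℝ → Set ℝ) (E : Set ℝ) : Near A E ↔
    Pool.Agent.R838.ST.NearE (fun T α β => ((Pool.Agent.R838.ST.SP (A T) T α β).ncard : ℝ)) E := by
  unfold Near Pool.Agent.R838.ST.NearE
  simp only [gaps_eq]

theorem result :
    (∀ α β ε : ℝ, 0 < ε → ε ≤ α → ∃ δ T₀ : ℝ, 0 < δ ∧ ∀ T t : ℝ, T₀ ≤ T → 0 ≤ t → t ≤ δ / Real.log T ^ 2 →
      gaps zetaOrd T (Icc α β) ≤ gaps (heatOrd t) T (Icc (α - ε) (β + ε)) + ε * (T * Real.log T) ∧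
      gaps (heatOrd t) T (Icc α β) ≤ gaps zetaOrd T (Icc (α - ε) (β + ε)) + ε * (T * Real.log T)) ∧
    (AH → ZetaAA) ∧
    (∀ t : ℝ → ℝ, (∀ T, 0 ≤ t T) → Tendsto (fun T => t T * Real.log T ^ 2) atTop (𝓝 0) →
      (∀ E : Set ℝ, IsClosed E → (Near (fun _ => zetaOrd) E ↔ Near (fun T => heatOrd (t T)) E)) ∧
      (ZetaAA ↔ HeatAA t)) ∧
    (∀ (t : ℝ → ℝ) (A : ℝ), (∀ T, 0 ≤ t T) → (∀ᶠ T in atTop, t T * Real.log T ≤ A) →
      Tendsto (fun T => t T * Real.log T ^ 2) atTop atTop →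
      (∀ ε η : ℝ, 0 < ε → 0 < η → ∀ᶠ T : ℝ in atTop,
        gaps (heatOrd (t T)) T {g | ε ≤ |g - 1|} ≤ η * (T * Real.log T)) ∧ HeatAA t) := by
  refine ⟨fun α β ε hε hεα => ?_, fun hAH => ?_, fun t ht ht2 => ?_, fun t A ht hA ht2 => ?_⟩
  · obtain ⟨δ, T0, hδ, -, h⟩ := Pool.Agent.R838.ST.cmpP α β ε hε hεα
    refine ⟨δ, T0, hδ, fun T t h1 h2 h3 => ?_⟩
    simp only [gaps_eq]
    exact h T t h1 h2 h3
  · exact ⟨(near_iff _ _).2 (Pool.Agent.N731.HV.ah_near hAH), Pool.Agent.N731.HV.few_ah hAH⟩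
  · have h1 : ∀ E : Set ℝ, IsClosed E → (Near (fun _ => zetaOrd) E ↔ Near (fun T => heatOrd (t T)) E) := by
      intro E hE
      rw [near_iff, near_iff]
      exact Pool.Agent.R838.ST.equiv_gap ht ht2 hE
    refine ⟨h1, ?_⟩
    unfold ZetaAA HeatAA
    rw [h1 Half Pool.Agent.N731.HV.half_closed]
    exact and_congr_right fun _ => Pool.Agent.N731.HV.few_equiv ht ht2 (by norm_num)
  · refine ⟨fun ε η hε hη => ?_, (near_iff _ _).2 ?_, ?_⟩
    · simp only [bad_eq]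
      exact Pool.Agent.N731.HV.cry_ht ht hA ht2 hε hη
    · exact Pool.Agent.N731.HV.near_large ht hA ht2 ⟨2, by norm_num, by norm_num⟩
    · exact Pool.Agent.N731.HV.few_large hA ht2

end Pool.Agent.Results.MP_f0209c_nt.HeatFlowSpacings
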