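import Pool.Agent.N806.HG.All

/-!
# The Alternative Hypothesis is false with an error term `O(1 / log γ)`, unconditionally

No hypothesis is assumed. For every real `β` let `x_β(t) = t log t / 2π + β t` and
`d_j = x_β(γ_{j+1}) - x_β(γ_j)`; for `β = 0` these are the normalised spacings of the Alternative
Hypothesis (AH). For every constant `C` there is `B` such that every interval `[T, B T]` with `T`
large contains two consecutive ordinates with `d_j < 1/2 - C / log γ_j`. So AH is false in the form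
`dist(d_j, {1/2, 1, 3/2, …}) ≤ C / log γ_j` for large `j`, whatever the constant `C` is.

Idea of the proof. Let `δ = (π / log T)(1 - C / log T)` and suppose that all zeros with ordinates in
`[T, 2T]` are simple, on the line and more than `δ` apart. The residue theorem for
`φ(s) Γ_R(s) Γ_R(1-s) ζ(s')A(s')ζ(1-s')A(1-s') / (Λ(s+iδ/2) Λ(s-iδ/2))`, `s' = s - iδ/2`, has
positive weights at the zeros, so that a quadratic form in the coefficients of `A` is nonnegative.
For `A(s) = ∑_{n ≤ N} μ(n) n^(-s)` with `N = T` the form vanishes to leading order. We take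
`N = e^K T` with a large constant `K`. After an average over the centre of the Gaussian `φ` in
`[5T/4, 7T/4]` the terms with `n > T` contribute `- c K`, except for the correlations
`∑ μ(n) μ(n+h)` with `1 ≤ h ≤ H(K)`. By the entropy decrement method of Tao the scales at which one
of these does not vanish have logarithmic Banach density zero, so every long interval contains a
good `T`.
-/

open Filter Topology

namespace Pool.Agent.Results.MP_f0209c_nt.NoErrorBoundOverLog

/-- multiplicity of `s` as a zero of the Riemann zeta function (order of vanishing at `s`) -/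
noncomputable def zmult (s : ℂ) : ℕ := analyticOrderNatAt riemannZeta s

/-- the nontrivial zeros of `ζ` with ordinate in `(0, T]` -/
def zeros (T : ℝ) : Set ℂ := {s : ℂ | riemannZeta s = 0 ∧ 0 < s.re ∧ s.re < 1 ∧ 0 < s.im ∧ s.im ≤ T}

/-- the number of the nontrivial zeros of `ζ` with ordinate in `(0, T]`, with multiplicity -/
noncomputable def N (T : ℝ) : ℕ := ∑ᶠ s ∈ zeros T, zmult s

/-- for `j ≥ 1`: the `j`-th positive ordinate `γ j` of a nontrivial zero of `ζ`, the ordinates being
listed in nondecreasing order and repeated according to multiplicity -/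
noncomputable def γ (j : ℕ) : ℝ := sInf {t : ℝ | j ≤ N t}

/-- the normalised height `x_β(t) = t log t / 2π + β t` -/
noncomputable def x (β t : ℝ) : ℝ := t * Real.log t / (2 * Real.pi) + β * t

/-- the normalised spacings `x_β(γ_{j+1}) - x_β(γ_j)`; for `β = 0` this is
`(γ_{j+1} log γ_{j+1} - γ_j log γ_j) / 2π` -/
noncomputable def d (β : ℝ) (j : ℕ) : ℝ := x β (γ (j + 1)) - x β (γ j)

lemma ord_eq (n : ℕ) : γ n = SG.ord n := rfl

/-- **Theorem.** Let `β` and `C` be real.
(1) There are `B` and `T₀` such that for all `T ≥ T₀` there is `j ≥ 1` with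
`T ≤ γ_j ≤ γ_{j+1} ≤ B T` and `d_j < 1/2 - C / log γ_j`.
(2) There are infinitely many `j` such that `|d_j - k / 2| > C / log γ_j` for all `k = 1, 2, 3, …`. -/
theorem result (β C : ℝ) :
    (∃ B T₀ : ℝ, ∀ T : ℝ, T₀ ≤ T → ∃ j : ℕ, 1 ≤ j ∧ T ≤ γ j ∧ γ j ≤ γ (j + 1) ∧
      γ (j + 1) ≤ B * T ∧ d β j < 1 / 2 - C / Real.log (γ j)) ∧
    {j : ℕ | 1 ≤ j ∧ ∀ k : ℕ, 1 ≤ k → C / Real.log (γ j) < |d β j - k / 2|}.Infinite := by
  have key : ∃ B T₀ : ℝ, ∀ T : ℝ, T₀ ≤ T → ∃ j : ℕ, 1 ≤ j ∧ T ≤ γ j ∧ γ j ≤ γ (j + 1) ∧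
      γ (j + 1) ≤ B * T ∧ d β j < 1 / 2 - C / Real.log (γ j) := by
    obtain ⟨B, T₀, h⟩ := Pool.Agent.N806.HG.gaps_win C β
    refine ⟨B, T₀, fun T hT => ?_⟩
    obtain ⟨j, h1, h2, h3, h4, h5⟩ := h T hT
    refine ⟨j, h1, h2, h3, h4, lt_of_le_of_lt (le_of_eq ?_) h5⟩
    simp only [d, x, ord_eq]
    ring
  refine ⟨key, ?_⟩
  obtain ⟨B, T₀, h⟩ := key
  rw [Set.infinite_iff_exists_gt]
  intro J
  obtain ⟨j, h1, h2, -, -, h5⟩ := h (max T₀ (γ (J + 1) + 1)) (le_max_left _ _)
  have h6 : γ (J + 1) + 1 ≤ γ j := (le_max_right _ _).trans h2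
  refine ⟨j, ⟨h1, fun k hk => ?_⟩, ?_⟩
  · have hk1 : (1 : ℝ) ≤ k := by exact_mod_cast hk
    rw [abs_sub_comm]
    refine lt_of_lt_of_le ?_ (le_abs_self _)
    linarith
  · by_contra hcon
    push Not at hcon
    have := SG.ord_mono h1 (by omega : j ≤ J + 1)
    rw [← ord_eq, ← ord_eq] at this
    linarith

end Pool.Agent.Results.MP_f0209c_nt.NoErrorBoundOverLog
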