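import Pool.Agent.N806.AH.Fin2

/-!
# The Alternative Hypothesis with an error term relative to the gap is false on RH

Assume the Riemann hypothesis. For every real `β` let `x_β(t) = t log t / 2π + β t` and
`d_j = x_β(γ_{j+1}) - x_β(γ_j)`; for `β = 0` these are the normalised spacings of the Alternative
Hypothesis (AH). We show that for all large `T` at least `c T / (log T)²` of the spacings with
`T / C ≤ γ_j ≤ T` satisfy `|d_j - k / 2| ≥ c (γ_{j+1} - γ_j + 1 / log T)` for all `k = 1, 2, 3, …`.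
In particular AH is false on RH in the form in which Farmer, Gonek and Lee (and later authors) use it,
`d_j = k_j / 2 + O(|γ_{j+1} - γ_j| ψ(γ_j))` with `k_j ≥ 1` and a function `ψ → 0`, and it is false
with any error term `o(1 / log γ_j)`.

Idea of the proof. If all the spacings of the zeros in a window are that close to half-integers, then,
with `χ` the factor of the functional equation, the phase `χ(1/2 + iγ)^(-2) y^(iγ)`,
`y = exp (-2 - 4πβ - 2 log 2π)`, is `ε`-Lipschitz on the zeros of the window with a small constant `ε`,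
and the zeros there are simple and separated. On RH the residues of `1/ζ` at these zeros are then
bounded in mean square, and Gaussian sums of the residues on all the scales between
`(log T)^(-1/2)` and `1` are short Dirichlet polynomials with Möbius coefficients; doubling the scale
step by step shows that the commutator of the Lipschitz phase with the Gaussian smoothing is `O(ε)` in
mean. So `(1 + c y^(s-1/2) χ(1-s)²) / ζ(s)` is nearly regular and the Dirichlet series of `1/ζ` on the
right of the critical line is tied to its reflection: for every squarefree `l` the Möbius function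
correlates with `n ↦ e(l y n)`. Together with the fact that the squarefree numbers omit residue
classes modulo squares, Bessel's inequality is violated if the good windows cover too much of
`[T / C, T]`.
-/

set_option autoImplicit false

namespace Pool.Agent.Results.MP_f0209c_nt.SpacingsOffHalfLattice

/-- the multiplicity of `s` as a zero of the Riemann zeta function (order of vanishing at `s`) -/
noncomputable def zmult (s : ℂ) : ℕ := analyticOrderNatAt riemannZeta s

/-- the nontrivial zeros of `ζ` with ordinate in `(0, T]` -/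
def zeros (T : ℝ) : Set ℂ :=
  {s : ℂ | riemannZeta s = 0 ∧ 0 < s.re ∧ s.re < 1 ∧ 0 < s.im ∧ s.im ≤ T}

/-- the number of the nontrivial zeros of `ζ` with ordinate in `(0, T]`, with multiplicity -/
noncomputable def N (T : ℝ) : ℕ := ∑ᶠ s ∈ zeros T, zmult s

/-- for `j ≥ 1`: the `j`-th positive ordinate `γ j` of a nontrivial zero of `ζ`, the ordinates being
listed in nondecreasing order and repeated according to multiplicity -/
noncomputable def γ (j : ℕ) : ℝ := sInf {t : ℝ | j ≤ N t}

/-- the normalised height `x_β(t) = t log t / 2π + β t` -/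
noncomputable def x (β t : ℝ) : ℝ := t * Real.log t / (2 * Real.pi) + β * t

/-- the normalised spacings `x_β(γ_{j+1}) - x_β(γ_j)`; for `β = 0` this is
`(γ_{j+1} log γ_{j+1} - γ_j log γ_j) / 2π` -/
noncomputable def d (β : ℝ) (j : ℕ) : ℝ := x β (γ (j + 1)) - x β (γ j)

lemma ord_eq (n : ℕ) : γ n = SG.ord n := rfl

lemma db_eq (β : ℝ) (n : ℕ) : d β n = Pool.Agent.N806.AH.db β n := rfl

open Filter Topology in
/-- **Theorem.** Assume the Riemann hypothesis and let `β` be real.
(1) There are `c > 0`, `C ≥ 1` and `T₀` such that for all `T ≥ T₀` at least `c T / (log T)²` of the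
indices `j ≥ 1` with `T / C ≤ γ_j ≤ T` satisfy `|d_j - k / 2| ≥ c (γ_{j+1} - γ_j + 1 / log T)` for all
`k = 1, 2, 3, …`.
(2) For every function `ψ` with `ψ(t) → 0` as `t → ∞` there are infinitely many `j` with
`|d_j - k / 2| > ψ(γ_j) (γ_{j+1} - γ_j + 1 / log γ_j)` for all `k = 1, 2, 3, …`. -/
theorem result (RH : RiemannHypothesis) (β : ℝ) :
    (∃ c C T₀ : ℝ, 0 < c ∧ 1 ≤ C ∧ 1 < T₀ ∧ ∀ T : ℝ, T₀ ≤ T →
      c * T / Real.log T ^ 2 ≤
        ({j : ℕ | 1 ≤ j ∧ T / C ≤ γ j ∧ γ j ≤ T ∧
          ∀ k : ℕ, 1 ≤ k → c * (γ (j + 1) - γ j + 1 / Real.log T) ≤ |d β j - k / 2|}.ncard : ℝ)) ∧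
    ∀ ψ : ℝ → ℝ, Tendsto ψ atTop (𝓝 0) →
      {j : ℕ | 1 ≤ j ∧ ∀ k : ℕ, 1 ≤ k →
        ψ (γ j) * (γ (j + 1) - γ j + 1 / Real.log (γ j)) < |d β j - k / 2|}.Infinite := by
  classical
  obtain ⟨c, C, T₀, h1, h2, h3, h4⟩ := Pool.Agent.N806.AH.main2 RH β
  have key : ∀ T : ℝ, T₀ ≤ T → c * T / Real.log T ^ 2 ≤
        ({j : ℕ | 1 ≤ j ∧ T / C ≤ γ j ∧ γ j ≤ T ∧
          ∀ k : ℕ, 1 ≤ k → c * (γ (j + 1) - γ j + 1 / Real.log T) ≤ |d β j - k / 2|}.ncard : ℝ) := by
    intro T hT
    refine (h4 T hT).trans (le_of_eq ?_)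
    rw [← Set.ncard_coe_finset]
    congr 2
    ext n
    rw [Finset.mem_coe, Pool.Agent.N806.AH.mem_BadR]
    constructor
    · rintro ⟨⟨a1, a2⟩, a3, a4⟩
      exact ⟨a1, a3, (SG.ord_le_iff a1 T).2 a2, a4⟩
    · rintro ⟨a1, a2, a3, a4⟩
      exact ⟨⟨a1, (SG.ord_le_iff a1 T).1 a3⟩, a2, a4⟩
  refine ⟨⟨c, C, T₀, h1, h2, h3, key⟩, fun ψ hψ => ?_⟩
  rw [Set.infinite_iff_exists_gt]
  intro J
  have hC : 0 < C := by linarith
  have hev : ∀ᶠ t in atTop, ψ t < c / 2 := hψ.eventually_lt_const (by positivity)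
  obtain ⟨T1, hT1⟩ := hev.exists_forall_of_atTop
  set T : ℝ := max (max T₀ (C ^ 2 * 3)) (C * max (max T1 3) (γ (J + 1) + 1)) with hT
  have b1 : T₀ ≤ T := (le_max_left _ _).trans (le_max_left _ _)
  have b2 : C ^ 2 * 3 ≤ T := (le_max_right _ _).trans (le_max_left _ _)
  have b3 : C * max (max T1 3) (γ (J + 1) + 1) ≤ T := le_max_right _ _
  have b4 : max (max T1 3) (γ (J + 1) + 1) ≤ T / C := by
    rw [le_div_iff₀ hC]
    linarith
  have b5 : T1 ≤ T / C := ((le_max_left _ _).trans (le_max_left _ _)).trans b4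
  have b6 : 3 ≤ T / C := ((le_max_right _ _).trans (le_max_left _ _)).trans b4
  have b7 : γ (J + 1) + 1 ≤ T / C := (le_max_right _ _).trans b4
  have hT3 : 1 < T := by linarith
  have hlog : 0 < Real.log T := Real.log_pos hT3
  have hpos : (0 : ℝ) < ({j : ℕ | 1 ≤ j ∧ T / C ≤ γ j ∧ γ j ≤ T ∧
      ∀ k : ℕ, 1 ≤ k → c * (γ (j + 1) - γ j + 1 / Real.log T) ≤ |d β j - k / 2|}.ncard : ℝ) :=
    lt_of_lt_of_le (by positivity) (key T b1)
  have hpos' : 0 < {j : ℕ | 1 ≤ j ∧ T / C ≤ γ j ∧ γ j ≤ T ∧
      ∀ k : ℕ, 1 ≤ k → c * (γ (j + 1) - γ j + 1 / Real.log T) ≤ |d β j - k / 2|}.ncard := by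
    exact_mod_cast hpos
  obtain ⟨j, hj1, hj2, hj3, hj4⟩ := Set.nonempty_of_ncard_ne_zero hpos'.ne'
  refine ⟨j, ⟨hj1, fun k hk => lt_of_lt_of_le ?_ (hj4 k hk)⟩, ?_⟩
  · have c1 : ψ (γ j) < c / 2 := hT1 _ (by linarith)
    have hgap : 0 ≤ γ (j + 1) - γ j := by
      have : γ j ≤ γ (j + 1) := SG.ord_mono hj1 (by omega)
      linarith
    have hγ3 : 3 ≤ γ j := by linarith
    have hlγ : 0 < Real.log (γ j) := Real.log_pos (by linarith)
    have hsq : T ≤ γ j ^ 2 := by
      have e1 : T ≤ (T / C) ^ 2 := by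
        rw [div_pow, le_div_iff₀ (by positivity)]
        have : T * C ^ 2 ≤ T * T := by
          apply mul_le_mul_of_nonneg_left _ (by linarith)
          nlinarith
        nlinarith
      refine e1.trans ?_
      exact pow_le_pow_left₀ (by linarith) hj2 2
    have hl2 : Real.log T ≤ 2 * Real.log (γ j) := by
      have e2 := Real.log_le_log (by linarith) hsq
      rwa [Real.log_pow, Nat.cast_ofNat] at e2
    have c2 : 1 / Real.log (γ j) ≤ 2 * (1 / Real.log T) := by
      rw [mul_one_div, div_le_div_iff₀ hlγ hlog]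
      linarith
    have c3 : 0 < 1 / Real.log T := by positivity
    have c4 : 0 < γ (j + 1) - γ j + 1 / Real.log (γ j) := by positivity
    calc ψ (γ j) * (γ (j + 1) - γ j + 1 / Real.log (γ j))
        < c / 2 * (γ (j + 1) - γ j + 1 / Real.log (γ j)) := mul_lt_mul_of_pos_right c1 c4
      _ ≤ c / 2 * (2 * (γ (j + 1) - γ j + 1 / Real.log T)) := by
          apply mul_le_mul_of_nonneg_left _ (by positivity)
          linarith
      _ = c * (γ (j + 1) - γ j + 1 / Real.log T) := by ring
  · by_contra hcon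
    push Not at hcon
    have : γ j ≤ γ (J + 1) := SG.ord_mono hj1 (by omega)
    linarith

end Pool.Agent.Results.MP_f0209c_nt.SpacingsOffHalfLattice
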